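import Mathlib
import Pool.Agent.V11306.SPe

/-!
# MP_fa5f9d, Q1: the values at the primitive twelfth roots of unity for `p ≡ 19 (mod 24)`
-/

set_option autoImplicit false

namespace Pool.Agent.Results.MP_fa5f9d_nt.Values

/-- The polynomial `S_p(x) = ∏_{k=1}^{(p-1)/2} (x - exp (2 π i k² / p))`. -/
noncomputable def S (p : ℕ) (x : ℂ) : ℂ :=
  ∏ k ∈ Finset.Icc 1 ((p - 1) / 2), (x - Complex.exp (2 * Real.pi * Complex.I * (k : ℂ) ^ 2 / p))

open Pool.Agent.V11306.SP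

lemma neg_one_zpow_natAbs (x : ℤ) : (-1 : ℂ) ^ x = (-1) ^ x.natAbs := by
  rcases Int.natAbs_eq x with h | h
  · conv_lhs => rw [h]
    rw [zpow_natCast]
  · conv_lhs => rw [h]
    rw [zpow_neg, zpow_natCast, ← inv_pow]
    norm_num

/-- **Q1 holds**: the four identities for every prime `p ≡ 19 (mod 24)`, `p = (4x)² + 3y²`. -/
theorem result (p : ℕ) [Fact p.Prime] (h : p % 24 = 19) (x y : ℤ)
    (hxy : (p : ℤ) = (4 * x) ^ 2 + 3 * y ^ 2) :
    S p (Complex.exp (2 * Real.pi * Complex.I / 12)) =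
      (-1) ^ (((p : ℤ) - 19) / 24 + x) * (1 + Complex.I) * ((1 + (Real.sqrt 3 : ℂ)) / 2) ∧
    S p (Complex.exp (-(2 * Real.pi * Complex.I / 12))) =
      (-1) ^ (((p : ℤ) - 19) / 24 + x) * (1 - Complex.I) * ((1 + (Real.sqrt 3 : ℂ)) / 2) ∧
    S p (Complex.exp (2 * Real.pi * Complex.I * 5 / 12)) =
      (-1) ^ (((p : ℤ) - 19) / 24 + x) * (1 + Complex.I) * ((1 - (Real.sqrt 3 : ℂ)) / 2) ∧
    S p (Complex.exp (-(2 * Real.pi * Complex.I * 5 / 12))) =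
      (-1) ^ (((p : ℤ) - 19) / 24 + x) * (1 - Complex.I) * ((1 - (Real.sqrt 3 : ℂ)) / 2) := by
  obtain ⟨m, hm⟩ : ∃ m, p = 2 * m + 1 := ⟨p / 2, by omega⟩
  obtain ⟨ε, hε, v1, v2, v3, v4⟩ := values19 h
  have hxy' : p = (4 * x.natAbs) ^ 2 + 3 * y.natAbs ^ 2 := by
    have : (p : ℤ) = (4 * (x.natAbs : ℤ)) ^ 2 + 3 * (y.natAbs : ℤ) ^ 2 := by
      rw [mul_pow, Int.natAbs_sq, Int.natAbs_sq, hxy]; ring
    exact_mod_cast this
  have hs := sign_eq h ε hε v1 x.natAbs y.natAbs hxy'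
  have hsign : (-1 : ℂ) ^ (((p : ℤ) - 19) / 24 + x) = (ε : ℂ) := by
    have h1 : ((p : ℤ) - 19) / 24 = (((p - 19) / 24 : ℕ) : ℤ) := by
      omega
    rw [zpow_add₀ (by norm_num), h1, zpow_natCast, neg_one_zpow_natAbs, hs, pow_add]
    push_cast
    ring
  have hS : ∀ z : ℂ, S p z = SR p z := fun z => S_eq m hm z
  have e1 : Complex.exp (-(2 * Real.pi * Complex.I / 12)) = z12⁻¹ := by
    rw [Complex.exp_neg, z12_exp]
  have e2 : Complex.exp (2 * Real.pi * Complex.I * 5 / 12) = z12 ^ 5 := by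
    rw [← z12_exp, ← Complex.exp_nat_mul]
    congr 1
    push_cast
    ring
  have e3 : Complex.exp (-(2 * Real.pi * Complex.I * 5 / 12)) = (z12 ^ 5)⁻¹ := by
    rw [Complex.exp_neg, e2]
  rw [hsign, e1, e2, e3, z12_exp, hS, hS, hS, hS]
  refine ⟨?_, ?_, ?_, ?_⟩
  · rw [v1]; ring
  · rw [v2]; ring
  · rw [v3]; ring
  · rw [v4]; ring

end Pool.Agent.Results.MP_fa5f9d_nt.Values
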